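import Pool.Agent.Helper438.S144.Sph.Join

/-!
Dimension eight: the 120 rays of the root system E8 contain no nine pairwise non-orthogonal rays,
so at least fifteen colours are needed. The proof reduces the root lattice modulo two.
-/

set_option autoImplicit false

namespace Pool.Agent.Helper438.S144.Sph

/-- the 120 rays of E8 (roots scaled by two) -/
def roots : List (List ℤ) := [
[2, 2, 0, 0, 0, 0, 0, 0],
[2, -2, 0, 0, 0, 0, 0, 0],
[2, 0, 2, 0, 0, 0, 0, 0],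
[2, 0, -2, 0, 0, 0, 0, 0],
[2, 0, 0, 2, 0, 0, 0, 0],
[2, 0, 0, -2, 0, 0, 0, 0],
[2, 0, 0, 0, 2, 0, 0, 0],
[2, 0, 0, 0, -2, 0, 0, 0],
[2, 0, 0, 0, 0, 2, 0, 0],
[2, 0, 0, 0, 0, -2, 0, 0],
[2, 0, 0, 0, 0, 0, 2, 0],
[2, 0, 0, 0, 0, 0, -2, 0],
[2, 0, 0, 0, 0, 0, 0, 2],
[2, 0, 0, 0, 0, 0, 0, -2],
[0, 2, 2, 0, 0, 0, 0, 0],
[0, 2, -2, 0, 0, 0, 0, 0],
[0, 2, 0, 2, 0, 0, 0, 0],
[0, 2, 0, -2, 0, 0, 0, 0],
[0, 2, 0, 0, 2, 0, 0, 0],
[0, 2, 0, 0, -2, 0, 0, 0],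
[0, 2, 0, 0, 0, 2, 0, 0],
[0, 2, 0, 0, 0, -2, 0, 0],
[0, 2, 0, 0, 0, 0, 2, 0],
[0, 2, 0, 0, 0, 0, -2, 0],
[0, 2, 0, 0, 0, 0, 0, 2],
[0, 2, 0, 0, 0, 0, 0, -2],
[0, 0, 2, 2, 0, 0, 0, 0],
[0, 0, 2, -2, 0, 0, 0, 0],
[0, 0, 2, 0, 2, 0, 0, 0],
[0, 0, 2, 0, -2, 0, 0, 0],
[0, 0, 2, 0, 0, 2, 0, 0],
[0, 0, 2, 0, 0, -2, 0, 0],
[0, 0, 2, 0, 0, 0, 2, 0],
[0, 0, 2, 0, 0, 0, -2, 0],
[0, 0, 2, 0, 0, 0, 0, 2],
[0, 0, 2, 0, 0, 0, 0, -2],
[0, 0, 0, 2, 2, 0, 0, 0],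
[0, 0, 0, 2, -2, 0, 0, 0],
[0, 0, 0, 2, 0, 2, 0, 0],
[0, 0, 0, 2, 0, -2, 0, 0],
[0, 0, 0, 2, 0, 0, 2, 0],
[0, 0, 0, 2, 0, 0, -2, 0],
[0, 0, 0, 2, 0, 0, 0, 2],
[0, 0, 0, 2, 0, 0, 0, -2],
[0, 0, 0, 0, 2, 2, 0, 0],
[0, 0, 0, 0, 2, -2, 0, 0],
[0, 0, 0, 0, 2, 0, 2, 0],
[0, 0, 0, 0, 2, 0, -2, 0],
[0, 0, 0, 0, 2, 0, 0, 2],
[0, 0, 0, 0, 2, 0, 0, -2],
[0, 0, 0, 0, 0, 2, 2, 0],
[0, 0, 0, 0, 0, 2, -2, 0],
[0, 0, 0, 0, 0, 2, 0, 2],
[0, 0, 0, 0, 0, 2, 0, -2],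
[0, 0, 0, 0, 0, 0, 2, 2],
[0, 0, 0, 0, 0, 0, 2, -2],
[1, 1, 1, 1, 1, 1, 1, 1],
[1, -1, -1, 1, 1, 1, 1, 1],
[1, -1, 1, -1, 1, 1, 1, 1],
[1, 1, -1, -1, 1, 1, 1, 1],
[1, -1, 1, 1, -1, 1, 1, 1],
[1, 1, -1, 1, -1, 1, 1, 1],
[1, 1, 1, -1, -1, 1, 1, 1],
[1, -1, -1, -1, -1, 1, 1, 1],
[1, -1, 1, 1, 1, -1, 1, 1],
[1, 1, -1, 1, 1, -1, 1, 1],
[1, 1, 1, -1, 1, -1, 1, 1],
[1, -1, -1, -1, 1, -1, 1, 1],
[1, 1, 1, 1, -1, -1, 1, 1],
[1, -1, -1, 1, -1, -1, 1, 1],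
[1, -1, 1, -1, -1, -1, 1, 1],
[1, 1, -1, -1, -1, -1, 1, 1],
[1, -1, 1, 1, 1, 1, -1, 1],
[1, 1, -1, 1, 1, 1, -1, 1],
[1, 1, 1, -1, 1, 1, -1, 1],
[1, -1, -1, -1, 1, 1, -1, 1],
[1, 1, 1, 1, -1, 1, -1, 1],
[1, -1, -1, 1, -1, 1, -1, 1],
[1, -1, 1, -1, -1, 1, -1, 1],
[1, 1, -1, -1, -1, 1, -1, 1],
[1, 1, 1, 1, 1, -1, -1, 1],
[1, -1, -1, 1, 1, -1, -1, 1],
[1, -1, 1, -1, 1, -1, -1, 1],
[1, 1, -1, -1, 1, -1, -1, 1],
[1, -1, 1, 1, -1, -1, -1, 1],
[1, 1, -1, 1, -1, -1, -1, 1],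
[1, 1, 1, -1, -1, -1, -1, 1],
[1, -1, -1, -1, -1, -1, -1, 1],
[1, -1, 1, 1, 1, 1, 1, -1],
[1, 1, -1, 1, 1, 1, 1, -1],
[1, 1, 1, -1, 1, 1, 1, -1],
[1, -1, -1, -1, 1, 1, 1, -1],
[1, 1, 1, 1, -1, 1, 1, -1],
[1, -1, -1, 1, -1, 1, 1, -1],
[1, -1, 1, -1, -1, 1, 1, -1],
[1, 1, -1, -1, -1, 1, 1, -1],
[1, 1, 1, 1, 1, -1, 1, -1],
[1, -1, -1, 1, 1, -1, 1, -1],
[1, -1, 1, -1, 1, -1, 1, -1],
[1, 1, -1, -1, 1, -1, 1, -1],
[1, -1, 1, 1, -1, -1, 1, -1],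
[1, 1, -1, 1, -1, -1, 1, -1],
[1, 1, 1, -1, -1, -1, 1, -1],
[1, -1, -1, -1, -1, -1, 1, -1],
[1, 1, 1, 1, 1, 1, -1, -1],
[1, -1, -1, 1, 1, 1, -1, -1],
[1, -1, 1, -1, 1, 1, -1, -1],
[1, 1, -1, -1, 1, 1, -1, -1],
[1, -1, 1, 1, -1, 1, -1, -1],
[1, 1, -1, 1, -1, 1, -1, -1],
[1, 1, 1, -1, -1, 1, -1, -1],
[1, -1, -1, -1, -1, 1, -1, -1],
[1, -1, 1, 1, 1, -1, -1, -1],
[1, 1, -1, 1, 1, -1, -1, -1],
[1, 1, 1, -1, 1, -1, -1, -1],
[1, -1, -1, -1, 1, -1, -1, -1],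
[1, 1, 1, 1, -1, -1, -1, -1],
[1, -1, -1, 1, -1, -1, -1, -1],
[1, -1, 1, -1, -1, -1, -1, -1],
[1, 1, -1, -1, -1, -1, -1, -1]]

/-- coordinates of the roots in the basis of simple roots, modulo two, as bit masks -/
def codes : List ℕ := [2, 4, 10, 12, 26, 28, 58, 60, 122, 124, 250, 252, 174, 168, 14, 8, 30, 24, 62, 56, 126, 120, 254, 248, 170, 172, 22, 16, 54, 48, 118, 112, 246, 240, 162, 164, 38, 32, 102, 96, 230, 224, 178, 180, 70, 64, 198, 192, 146, 148, 134, 128, 210, 212, 82, 84, 175, 161, 177, 185, 145, 153, 137, 135, 209, 217, 201, 199, 233, 231, 247, 255, 81, 89, 73, 71, 105, 103, 119, 127, 41, 39, 55, 63, 23, 31, 15, 1, 5, 13, 29, 19, 61, 51, 35, 43, 125, 115, 99, 107, 67, 75, 91, 85, 253, 243, 227, 235, 195, 203, 219, 213, 131, 139, 155, 149, 187, 181, 165, 173]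

/-- the `i`-th ray -/
def root (i : ℕ) : List ℤ := roots.getD i []

def code (i : ℕ) : ℕ := codes.getD i 0

def co (l : List ℤ) (t : ℕ) : ℤ := l.getD t 0

def dot8 (v w : List ℤ) : ℤ :=
  co v 0 * co w 0 + co v 1 * co w 1 + co v 2 * co w 2 + co v 3 * co w 3 +
    co v 4 * co w 4 + co v 5 * co w 5 + co v 6 * co w 6 + co v 7 * co w 7

/-- bit number `s` of `x` -/
def bt (x s : ℕ) : ℕ := Nat.mod (Nat.div x (Nat.pow 2 s)) 2

/-- the bilinear form on masks -/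
def bn (x y : ℕ) : ℕ :=
  bt x 0 * bt y 0 + bt x 1 * bt y 1 + bt x 2 * bt y 2 + bt x 3 * bt y 3 + bt x 4 * bt y 4 + bt x 5 * bt y 5 + bt x 6 * bt y 6 + bt x 7 * bt y 7 + bt x 0 * bt y 2 + bt x 1 * bt y 3 + bt x 2 * bt y 3 + bt x 3 * bt y 4 + bt x 4 * bt y 5 + bt x 5 * bt y 6 + bt x 6 * bt y 7

/-- the bilinear form modulo two -/
def bz (x y : Fin 8 → ZMod 2) : ZMod 2 :=
  x 0 * y 0 + x 1 * y 1 + x 2 * y 2 + x 3 * y 3 + x 4 * y 4 + x 5 * y 5 + x 6 * y 6 + x 7 * y 7 + x 0 * y 2 + x 1 * y 3 + x 2 * y 3 + x 3 * y 4 + x 4 * y 5 + x 5 * y 6 + x 6 * y 7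

def xv (i : ℕ) : Fin 8 → ZMod 2 := fun s => ((bt (code i) s.val : ℕ) : ZMod 2)

theorem bz_xv (i j : ℕ) : bz (xv i) (xv j) = ((bn (code i) (code j) : ℕ) : ZMod 2) := by
  simp only [bz, xv, bn]
  push_cast
  rfl

def rowOk (i : ℕ) : Bool :=
  Nat.beq (Nat.mod (bn (code i) (code i)) 2) 1 && decide (dot8 (root i) (root i) ≠ 0) &&
    (List.range 120).all fun j => Nat.beq i j || decide (dot8 (root i) (root j) = 0) ||
      Nat.beq (Nat.mod (bn (code i) (code j) + bn (code j) (code i)) 2) 1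

set_option maxRecDepth 100000 in
theorem rows_ok : (List.range 120).all rowOk = true := by
  decide +kernel

theorem row_ok {i : ℕ} (hi : i < 120) : rowOk i = true :=
  List.all_eq_true.1 rows_ok i (List.mem_range.2 hi)

theorem cast_one {m : ℕ} (h : Nat.beq (Nat.mod m 2) 1 = true) : ((m : ℕ) : ZMod 2) = 1 := by
  have h1 : m % 2 = 1 := Nat.eq_of_beq_eq_true h
  have h2 : ((m : ℕ) : ZMod 2) = ((1 : ℕ) : ZMod 2) := (ZMod.natCast_eq_natCast_iff' m 1 2).2 h1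
  simpa using h2

theorem q_one {i : ℕ} (hi : i < 120) : bz (xv i) (xv i) = 1 := by
  have h := row_ok hi
  simp only [rowOk, Bool.and_eq_true] at h
  rw [bz_xv]
  exact cast_one h.1.1

theorem nz {i : ℕ} (hi : i < 120) : dot8 (root i) (root i) ≠ 0 := by
  have h := row_ok hi
  simp only [rowOk, Bool.and_eq_true] at h
  exact of_decide_eq_true h.1.2

theorem b_one {i j : ℕ} (hi : i < 120) (hj : j < 120) (hij : i ≠ j)
    (hd : dot8 (root i) (root j) ≠ 0) : bz (xv i) (xv j) + bz (xv j) (xv i) = 1 := by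
  have h := row_ok hi
  simp only [rowOk, Bool.and_eq_true] at h
  have h2 := List.all_eq_true.1 h.2 j (List.mem_range.2 hj)
  simp only [Bool.or_eq_true] at h2
  rcases h2 with (h2 | h2) | h2
  · exact absurd (Nat.eq_of_beq_eq_true h2) hij
  · exact absurd (of_decide_eq_true h2) hd
  · rw [bz_xv, bz_xv, ← Nat.cast_add]
    exact cast_one h2

theorem bz_add_left (x x' y : Fin 8 → ZMod 2) : bz (x + x') y = bz x y + bz x' y := by
  simp only [bz, Pi.add_apply]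
  ring

theorem bz_add_right (x y y' : Fin 8 → ZMod 2) : bz x (y + y') = bz x y + bz x y' := by
  simp only [bz, Pi.add_apply]
  ring

theorem bz_smul_left (c : ZMod 2) (x y : Fin 8 → ZMod 2) : bz (c • x) y = c * bz x y := by
  simp only [bz, Pi.smul_apply, smul_eq_mul]
  ring

theorem bz_smul_right (c : ZMod 2) (x y : Fin 8 → ZMod 2) : bz x (c • y) = c * bz x y := by
  simp only [bz, Pi.smul_apply, smul_eq_mul]
  ring

theorem bz_zero_left (y : Fin 8 → ZMod 2) : bz 0 y = 0 := by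
  simp [bz]

theorem bz_zero_right (y : Fin 8 → ZMod 2) : bz y 0 = 0 := by
  simp [bz]

theorem bz_sum_left {m : ℕ} (v : Fin m → Fin 8 → ZMod 2) (y : Fin 8 → ZMod 2) :
    bz (∑ k, v k) y = ∑ k, bz (v k) y := by
  induction m with
  | zero => simp [bz_zero_left]
  | succ m ih => rw [Fin.sum_univ_castSucc, Fin.sum_univ_castSucc, bz_add_left, ih]

theorem bz_sum_right {m : ℕ} (v : Fin m → Fin 8 → ZMod 2) (y : Fin 8 → ZMod 2) :
    bz y (∑ k, v k) = ∑ k, bz y (v k) := by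
  induction m with
  | zero => simp [bz_zero_right]
  | succ m ih => rw [Fin.sum_univ_castSucc, Fin.sum_univ_castSucc, bz_add_right, ih]

/-- `1 + 2 + ... + m` -/
def tri : ℕ → ℕ
  | 0 => 0
  | m + 1 => tri m + (m + 1)

theorem double_sum (m : ℕ) : ∀ b : Fin m → Fin m → ZMod 2, (∀ k, b k k = 1) →
    (∀ k l, k ≠ l → b k l + b l k = 1) → ∑ k, ∑ l, b k l = ((tri m : ℕ) : ZMod 2) := by
  induction m with
  | zero => intro b _ _; simp [tri]
  | succ m ih =>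
    intro b h1 h2
    rw [Fin.sum_univ_castSucc]
    have e1 : ∀ k : Fin m, ∑ l, b k.castSucc l =
        (∑ l : Fin m, b k.castSucc l.castSucc) + b k.castSucc (Fin.last m) := fun k =>
      Fin.sum_univ_castSucc _
    have e2 : ∑ l, b (Fin.last m) l =
        (∑ l : Fin m, b (Fin.last m) l.castSucc) + b (Fin.last m) (Fin.last m) :=
      Fin.sum_univ_castSucc _
    rw [Finset.sum_congr rfl fun k _ => e1 k, Finset.sum_add_distrib, e2, h1,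
      ih (fun k l => b k.castSucc l.castSucc) (fun k => h1 _)
        (fun k l hkl => h2 _ _ fun h => hkl (Fin.castSucc_injective m h))]
    have e3 : (∑ k : Fin m, b k.castSucc (Fin.last m)) + ∑ k : Fin m, b (Fin.last m) k.castSucc =
        (m : ZMod 2) := by
      rw [← Finset.sum_add_distrib, Finset.sum_congr rfl fun k _ =>
        h2 k.castSucc (Fin.last m) (Fin.castSucc_lt_last k).ne]
      simp
    have e4 : ((tri (m + 1) : ℕ) : ZMod 2) = ((tri m : ℕ) : ZMod 2) + ((m : ZMod 2) + 1) := by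
      simp [tri]
    rw [e4, ← e3]
    ring

/-- There are no nine pairwise non-orthogonal rays of E8. -/
theorem no_nine (r : Fin 9 → ℕ) (hr : ∀ k, r k < 120) (hinj : Function.Injective r)
    (hd : ∀ k l, k ≠ l → dot8 (root (r k)) (root (r l)) ≠ 0) : False := by
  have hq : ∀ k, bz (xv (r k)) (xv (r k)) = 1 := fun k => q_one (hr k)
  have hb : ∀ k l, k ≠ l → bz (xv (r k)) (xv (r l)) + bz (xv (r l)) (xv (r k)) = 1 := fun k l hkl =>
    b_one (hr k) (hr l) (fun h => hkl (hinj h)) (hd k l hkl)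
  have hdep : ¬ LinearIndependent (ZMod 2) fun k : Fin 9 => xv (r k) := by
    intro h
    have := h.fintype_card_le_finrank
    simp at this
  rw [Fintype.not_linearIndependent_iff] at hdep
  obtain ⟨u, hu, k0, hk0⟩ := hdep
  have two : (1 : ZMod 2) + 1 = 0 := by decide
  -- all coefficients are equal
  have hall : ∀ j, u j = ∑ k, u k := by
    intro j
    have h1 : bz (∑ k, u k • xv (r k)) (xv (r j)) + bz (xv (r j)) (∑ k, u k • xv (r k)) = 0 := by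
      rw [hu, bz_zero_left, bz_zero_right, add_zero]
    rw [bz_sum_left, bz_sum_right, ← Finset.sum_add_distrib] at h1
    have h2 : ∀ k, bz (u k • xv (r k)) (xv (r j)) + bz (xv (r j)) (u k • xv (r k)) =
        u k + if k = j then u k else 0 := by
      intro k
      rw [bz_smul_left, bz_smul_right, ← mul_add]
      by_cases hkj : k = j
      · subst hkj
        rw [hq, two, mul_zero, if_pos rfl, ← two_mul]
        have : (2 : ZMod 2) = 0 := by decide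
        rw [this, zero_mul]
      · rw [hb k j hkj, mul_one, if_neg hkj, add_zero]
    rw [Finset.sum_congr rfl fun k _ => h2 k, Finset.sum_add_distrib, Finset.sum_ite_eq' ] at h1
    simp only [Finset.mem_univ, if_true] at h1
    have h3 : ∀ a b : ZMod 2, a + b = 0 → b = a := by decide
    exact h3 _ _ h1
  have hone : ∀ j, u j = 1 := by
    intro j
    have h1 : u j = u k0 := (hall j).trans (hall k0).symm
    have h2 : ∀ a : ZMod 2, a ≠ 0 → a = 1 := by decide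
    rw [h1]
    exact h2 _ hk0
  have hs : ∑ k, xv (r k) = 0 := by
    rw [← hu]
    exact Finset.sum_congr rfl fun k _ => by rw [hone k, one_smul]
  have h1 : bz (∑ k, xv (r k)) (∑ k, xv (r k)) = 0 := by rw [hs, bz_zero_left]
  rw [bz_sum_left, Finset.sum_congr rfl fun k _ => bz_sum_right (fun l => xv (r l)) (xv (r k)),
    double_sum 9 (fun k l => bz (xv (r k)) (xv (r l))) hq hb] at h1
  revert h1
  decide

/-- An integer vector as a real vector. -/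
noncomputable def toE8 (v : List ℤ) : EuclideanSpace ℝ (Fin 8) :=
  WithLp.toLp 2 (fun t : Fin 8 => ((co v t.val : ℤ) : ℝ))

theorem inner_toE8 (v w : List ℤ) : inner ℝ (toE8 v) (toE8 w) = ((dot8 v w : ℤ) : ℝ) := by
  simp only [toE8, dot8, PiLp.inner_apply, Fin.sum_univ_eight]
  simp
  ring

theorem toE8_ne {v : List ℤ} (h : dot8 v v ≠ 0) : toE8 v ≠ 0 := by
  intro h0
  apply h
  have h1 := inner_toE8 v v
  rw [h0] at h1
  simp at h1
  exact_mod_cast h1.symm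

theorem L_eight : L 8 15 := by
  classical
  intro n hn
  obtain ⟨C⟩ := hn
  let f : Fin 120 → Fin n := fun i => C (uv (toE8 (root i.val)) (toE8_ne (nz i.isLt)))
  have hclass : ∀ c : Fin n, (Finset.univ.filter fun i => f i = c).card ≤ 8 := by
    intro c
    by_contra hc
    push Not at hc
    obtain ⟨T, hT, hcard⟩ := Finset.exists_subset_card_eq (Nat.succ_le_of_lt hc)
    let e := T.orderEmbOfFin hcard
    refine no_nine (fun k => (e k).val) (fun k => (e k).isLt)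
      (fun k l h => e.injective (Fin.ext h)) ?_
    intro k l hkl h0
    have hk : f (e k) = c := (Finset.mem_filter.1 (hT (Finset.orderEmbOfFin_mem T hcard k))).2
    have hl : f (e l) = c := (Finset.mem_filter.1 (hT (Finset.orderEmbOfFin_mem T hcard l))).2
    refine C.valid (adj_uv (toE8_ne (nz (e k).isLt)) (toE8_ne (nz (e l).isLt)) ?_)
      (hk.trans hl.symm)
    rw [inner_toE8, h0]
    simp
  have hsum := Finset.card_eq_sum_card_fiberwise (f := f) (s := Finset.univ)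
    (t := Finset.univ) (fun _ _ => Finset.mem_coe.2 (Finset.mem_univ _))
  have hle : ∑ c : Fin n, (Finset.univ.filter fun i => f i = c).card ≤ ∑ _c : Fin n, 8 :=
    Finset.sum_le_sum fun c _ => hclass c
  rw [← hsum] at hle
  simp at hle
  omega

end Pool.Agent.Helper438.S144.Sph
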