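import Pool.Agent.Helper438.S144.Sph.Rup

/-!
Propositional encoding: the rays with numbers `0, ..., n - 1` are coloured with `k` colours such
that the pairs in the list `edges` get different colours. The variable `k * i + c` says that the
ray number `i` has colour `c`.
-/

set_option autoImplicit false

namespace Pool.Agent.Helper438.S144.Sph

open Pool.Agent.Helper438.S144.Rup

def atLeast (k i : ℕ) : ℕ × ℕ :=
  (Nat.mul (Nat.sub (Nat.pow 2 k) 1) (Nat.pow 2 (Nat.mul k i)), 0)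

def conflict (k : ℕ) (e : ℕ × ℕ) (c : ℕ) : ℕ × ℕ :=
  (0, Nat.lor (Nat.pow 2 (Nat.add (Nat.mul k e.1) c)) (Nat.pow 2 (Nat.add (Nat.mul k e.2) c)))

def unitc (k : ℕ) (b : ℕ × ℕ) : ℕ × ℕ := (Nat.pow 2 (Nat.add (Nat.mul k b.1) b.2), 0)

def cnf (k n : ℕ) (edges basis : List (ℕ × ℕ)) : List (ℕ × ℕ) :=
  (List.range n).map (atLeast k) ++
    (edges.flatMap (fun e => (List.range k).map (conflict k e)) ++ basis.map (unitc k))

/-- the `i`-th ray -/
def ray (vs : List (ℤ × ℤ × ℤ × ℤ)) (i : ℕ) : ℤ × ℤ × ℤ × ℤ := vs.getD i (0, 0, 0, 0)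

/-- inner product -/
def dot (v w : ℤ × ℤ × ℤ × ℤ) : ℤ :=
  v.1 * w.1 + v.2.1 * w.2.1 + v.2.2.1 * w.2.2.1 + v.2.2.2 * w.2.2.2

def edgesOk (vs : List (ℤ × ℤ × ℤ × ℤ)) (edges : List (ℕ × ℕ)) : Bool :=
  edges.all fun e => decide (e.1 < vs.length) && decide (e.2 < vs.length) &&
    decide (dot (ray vs e.1) (ray vs e.2) = 0)

def nzOk (vs : List (ℤ × ℤ × ℤ × ℤ)) : Bool := vs.all fun v => decide (v ≠ (0, 0, 0, 0))

def basisOk (vs : List (ℤ × ℤ × ℤ × ℤ)) (basis : List (ℕ × ℕ)) : Bool :=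
  basis.all fun b => decide (b.1 < vs.length) && decide (b.2 < 4) &&
    decide (ray vs b.1 = (if b.2 = 0 then 1 else 0, if b.2 = 1 then 1 else 0,
      if b.2 = 2 then 1 else 0, if b.2 = 3 then 1 else 0))

theorem testBit_pow (a i : ℕ) : (Nat.pow 2 a).testBit i = decide (a = i) := by
  change (2 ^ a).testBit i = _
  rw [Nat.testBit_two_pow]

/-- A colouring satisfies the clauses. -/
theorem sat_cnf {k n : ℕ} {edges basis : List (ℕ × ℕ)} (f : ℕ → ℕ)
    (hf : ∀ i < n, f i < k) (he : ∀ e ∈ edges, f e.1 ≠ f e.2)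
    (hb : ∀ b ∈ basis, b.2 < k ∧ f b.1 = b.2) :
    ∀ c ∈ cnf k n edges basis, Sat (fun m => f (m / k) = m % k) c.1 c.2 := by
  intro c hc
  simp only [cnf, List.mem_append, List.mem_map, List.mem_flatMap, List.mem_range] at hc
  rcases hc with ⟨i, hi, rfl⟩ | ⟨e, hee, c, hc, rfl⟩ | ⟨b, hbb, rfl⟩
  · left
    have hk := hf i hi
    refine ⟨k * i + f i, ?_, ?_⟩
    · change ((2 ^ k - 1) * 2 ^ (k * i)).testBit (k * i + f i) = true
      rw [Nat.testBit_mul_two_pow, Nat.add_sub_cancel_left, Nat.testBit_two_pow_sub_one]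
      simp [hk]
    · have h1 : (k * i + f i) / k = i := by
        rw [Nat.mul_add_div (by omega), Nat.div_eq_of_lt hk, Nat.add_zero]
      have h2 : (k * i + f i) % k = f i := by
        rw [Nat.mul_add_mod, Nat.mod_eq_of_lt hk]
      change f ((k * i + f i) / k) = (k * i + f i) % k
      rw [h1, h2]
  · right
    have hne := he e hee
    have h1 : ∀ i : ℕ, (k * i + c) / k = i := fun i => by
      rw [Nat.mul_add_div (by omega), Nat.div_eq_of_lt hc, Nat.add_zero]
    have h2 : ∀ i : ℕ, (k * i + c) % k = c := fun i => by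
      rw [Nat.mul_add_mod, Nat.mod_eq_of_lt hc]
    by_cases h : f e.1 = c
    · refine ⟨k * e.2 + c, ?_, ?_⟩
      · change (Nat.pow 2 (k * e.1 + c) ||| Nat.pow 2 (k * e.2 + c)).testBit (k * e.2 + c) = true
        rw [Nat.testBit_lor, testBit_pow, testBit_pow]; simp
      · change ¬ f ((k * e.2 + c) / k) = (k * e.2 + c) % k
        rw [h1, h2]
        exact fun h' => hne (h.trans h'.symm)
    · refine ⟨k * e.1 + c, ?_, ?_⟩
      · change (Nat.pow 2 (k * e.1 + c) ||| Nat.pow 2 (k * e.2 + c)).testBit (k * e.1 + c) = true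
        rw [Nat.testBit_lor, testBit_pow, testBit_pow]; simp
      · change ¬ f ((k * e.1 + c) / k) = (k * e.1 + c) % k
        rw [h1, h2]
        exact h
  · left
    obtain ⟨hk, hfb⟩ := hb b hbb
    refine ⟨k * b.1 + b.2, ?_, ?_⟩
    · change (Nat.pow 2 (k * b.1 + b.2)).testBit (k * b.1 + b.2) = true
      rw [testBit_pow]; simp
    · have h1 : (k * b.1 + b.2) / k = b.1 := by
        rw [Nat.mul_add_div (by omega), Nat.div_eq_of_lt hk, Nat.add_zero]
      have h2 : (k * b.1 + b.2) % k = b.2 := by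
        rw [Nat.mul_add_mod, Nat.mod_eq_of_lt hk]
      change f ((k * b.1 + b.2) / k) = (k * b.1 + b.2) % k
      rw [h1, h2, hfb]

end Pool.Agent.Helper438.S144.Sph
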