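import Pool.Agent.Helper438.S144.Sph.Graph

/-!
Dimension three: the criterion, for integer vectors whose last coordinate is zero.
-/

set_option autoImplicit false

namespace Pool.Agent.Helper438.S144.Sph

open Pool.Agent.Helper438.S144.Rup

/-- The first three coordinates of an integer vector as a real vector. -/
noncomputable def toE3 (v : ℤ × ℤ × ℤ × ℤ) : EuclideanSpace ℝ (Fin 3) :=
  !₂[(v.1 : ℝ), (v.2.1 : ℝ), (v.2.2.1 : ℝ)]

theorem inner_toE3 (v w : ℤ × ℤ × ℤ × ℤ) (hv : v.2.2.2 = 0) :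
    inner ℝ (toE3 v) (toE3 w) = ((dot v w : ℤ) : ℝ) := by
  simp only [toE3, dot, PiLp.inner_apply, Fin.sum_univ_three, hv]
  simp
  ring

theorem toE3_ne {v : ℤ × ℤ × ℤ × ℤ} (h : v ≠ (0, 0, 0, 0)) (hv : v.2.2.2 = 0) : toE3 v ≠ 0 := by
  intro h0
  apply h
  have h1 := congrArg (fun u : EuclideanSpace ℝ (Fin 3) => u 0) h0
  have h2 := congrArg (fun u : EuclideanSpace ℝ (Fin 3) => u 1) h0
  have h3 := congrArg (fun u : EuclideanSpace ℝ (Fin 3) => u 2) h0
  simp [toE3] at h1 h2 h3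
  exact Prod.ext h1 (Prod.ext h2 (Prod.ext h3 hv))

def eb3 (t : Fin 3) : ℤ × ℤ × ℤ × ℤ :=
  (if t.val = 0 then 1 else 0, if t.val = 1 then 1 else 0, if t.val = 2 then 1 else 0, 0)

theorem eb3_ne (t : Fin 3) : eb3 t ≠ (0, 0, 0, 0) := by
  fin_cases t <;> decide

theorem eb3_z (t : Fin 3) : (eb3 t).2.2.2 = 0 := rfl

theorem dot_eb3 {s t : Fin 3} (h : s ≠ t) : dot (eb3 s) (eb3 t) = 0 := by
  revert h; revert s t; decide

def nzOk3 (vs : List (ℤ × ℤ × ℤ × ℤ)) : Bool :=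
  vs.all fun v => decide (v ≠ (0, 0, 0, 0)) && decide (v.2.2.2 = 0)

def basisOk3 (vs : List (ℤ × ℤ × ℤ × ℤ)) (basis : List (ℕ × ℕ)) : Bool :=
  basis.all fun b => decide (b.1 < vs.length) && decide (b.2 < 3) &&
    decide (ray vs b.1 = (if b.2 = 0 then 1 else 0, if b.2 = 1 then 1 else 0,
      if b.2 = 2 then 1 else 0, 0))

theorem not_colorable3 {k : ℕ} (hk : 3 ≤ k) {vs : List (ℤ × ℤ × ℤ × ℤ)}
    {edges basis : List (ℕ × ℕ)} {steps : List ℕ} {N n : ℕ} (hn : vs.length = n)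
    (h_ok : build (cnf k n edges basis) Tr.nil 0 (fun t => run steps t N) = true)
    (h_edges : edgesOk vs edges = true) (h_basis : basisOk3 vs basis = true)
    (h_nz : nzOk3 vs = true) : ¬ (orthGraph 3).Colorable k := by
  classical
  rintro ⟨C⟩
  let g : Fin 3 → Fin k := fun t => C (uv (toE3 (eb3 t)) (toE3_ne (eb3_ne t) (eb3_z t)))
  have hg : Function.Injective g := by
    intro s t hst
    by_contra hne
    have hadj : (orthGraph 3).Adj (uv (toE3 (eb3 s)) (toE3_ne (eb3_ne s) (eb3_z s)))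
        (uv (toE3 (eb3 t)) (toE3_ne (eb3_ne t) (eb3_z t))) := by
      apply adj_uv
      rw [inner_toE3 _ _ (eb3_z s), dot_eb3 hne]
      simp
    exact C.valid hadj hst
  obtain ⟨σ, hσ⟩ : ∃ σ : Equiv.Perm (Fin k), ∀ t, σ (g t) = Fin.castLE hk t := by
    let e1 : Set.range g ≃ Set.range (Fin.castLE hk) :=
      (Equiv.ofInjective g hg).symm.trans (Equiv.ofInjective _ (Fin.castLE_injective hk))
    refine ⟨e1.extendSubtype, fun t => ?_⟩
    rw [Equiv.extendSubtype_apply_of_mem e1 (g t) ⟨t, rfl⟩]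
    simp [e1]
  let f : ℕ → ℕ := fun i =>
    if h : ray vs i ≠ (0, 0, 0, 0) ∧ (ray vs i).2.2.2 = 0 then
      (σ (C (uv (toE3 (ray vs i)) (toE3_ne h.1 h.2)))).val else 0
  have hnz : ∀ i < vs.length, ray vs i ≠ (0, 0, 0, 0) ∧ (ray vs i).2.2.2 = 0 := by
    intro i hi
    have h1 := List.all_eq_true.1 h_nz (ray vs i) (by
      unfold ray
      rw [List.getD_eq_getElem _ _ hi]
      exact List.getElem_mem hi)
    simp only [Bool.and_eq_true, decide_eq_true_eq] at h1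
    exact h1
  have hf : ∀ i < n, f i < k := by
    intro i hi
    simp only [f]
    rw [dif_pos (hnz i (hn ▸ hi))]
    exact Fin.isLt _
  have he : ∀ e ∈ edges, f e.1 ≠ f e.2 := by
    intro e hee
    have h1 := List.all_eq_true.1 h_edges e hee
    simp only [Bool.and_eq_true, decide_eq_true_eq] at h1
    obtain ⟨⟨h1, h2⟩, h3⟩ := h1
    simp only [f]
    rw [dif_pos (hnz _ h1), dif_pos (hnz _ h2)]
    intro h4
    have h5 := σ.injective (Fin.ext h4)
    refine C.valid ?_ h5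
    apply adj_uv
    rw [inner_toE3 _ _ (hnz _ h1).2, h3]
    simp
  have hb : ∀ b ∈ basis, b.2 < k ∧ f b.1 = b.2 := by
    intro b hbb
    have h1 := List.all_eq_true.1 h_basis b hbb
    simp only [Bool.and_eq_true, decide_eq_true_eq] at h1
    obtain ⟨⟨h1, h2⟩, h3⟩ := h1
    refine ⟨by omega, ?_⟩
    have h4 : ray vs b.1 = eb3 ⟨b.2, h2⟩ := h3
    have key : ∀ (v : ℤ × ℤ × ℤ × ℤ) (hv : v ≠ (0, 0, 0, 0)) (hz : v.2.2.2 = 0),
        v = eb3 ⟨b.2, h2⟩ →
        σ (C (uv (toE3 v) (toE3_ne hv hz))) = Fin.castLE hk ⟨b.2, h2⟩ := by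
      intro v hv hz h
      subst h
      exact hσ _
    simp only [f]
    rw [dif_pos (hnz _ h1), key _ (hnz _ h1).1 (hnz _ h1).2 h4]
    rfl
  exact refute h_ok _ (sat_cnf f hf he hb)

end Pool.Agent.Helper438.S144.Sph
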